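import Pool.Agent.helper96.LK.SpecR

open PowerSeries Filter Topology Set

noncomputable section

namespace Pool.Agent.LK

open Pool.Agent.helper59.LC Pool.Agent.helper59.LD

theorem QW_const {n K : ℕ} (Q : QPt n K) : MvPolynomial.constantCoeff Q.W = 0 := by
  have h1 := congrArg MvPolynomial.constantCoeff Q.hW
  rw [map_mul, Q.dconst, one_mul, const_W0] at h1
  exact h1

theorem QW_D1 {n K : ℕ} (Q : QPt n K) (i : Fin 2) :
    D1 i Q.W = if i = 0 then Complex.I else 0 := by
  have h1 := congrArg (D1 i) Q.hW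
  rw [D1_mul, Q.dconst, QW_const Q, D1_W0] at h1
  rw [← h1]
  ring

theorem QW : QW_stmt := by
  intro n K Q
  refine ⟨QW_const Q, ?_, ?_, ?_, ?_⟩
  · rw [D1_ff, QW_D1, QW_D1, D1_Zp0]
    simp
  · rw [D1_ff, QW_D1, QW_D1, D1_Zp1]
    simp
  · rw [totalDegree_ff]
    exact Q.deg
  · intro H ε hH
    rw [totalDegree_ff]
    have h1 : TD Q.W n := Q.deg.le
    exact h1.add (((td_C _ 0).mul hH).mono (by omega))

end Pool.Agent.LK
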