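import Pool.Agent.helper96.LK.SpecR

open Set Filter Topology PowerSeries Asymptotics

set_option linter.unusedSectionVars false

noncomputable section

namespace Pool.Agent.LK

open Pool.Agent.helper59.LC Pool.Agent.helper59.LD

theorem RA : RA_stmt := by
  intro f Φ h hcont hex
  classical
  set n := Nat.find hex with hn
  have hnz : ((coeff n Φ).coeff 1).re ≠ 0 := Nat.find_spec hex
  have hlt : ∀ j, j < n → ((coeff j Φ).coeff 1).re = 0 := fun j hj => by
    have := Nat.find_min hex hj
    exact not_not.1 this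
  obtain ⟨Q, hQ1, hQ2⟩ := h (n + 1)
  have hcoef : ∀ j, j ≤ n → coeff j Φ = Q.coeff j := by
    intro j hj
    rw [X_pow_dvd_iff] at hQ1
    have := hQ1 j (by omega)
    rw [map_sub, Polynomial.coeff_coe, sub_eq_zero] at this
    exact this
  obtain ⟨C, hC⟩ := lF_bound hQ2
  set q : Polynomial ℝ := ∑ j ∈ Finset.range (Q.natDegree + 1),
    Polynomial.C (((Q.coeff j).coeff 1).re) * Polynomial.X ^ j with hq
  have hqc : ∀ m, q.coeff m = ((Q.coeff m).coeff 1).re := by
    intro m
    rw [hq, Polynomial.finsetSum_coeff]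
    simp only [Polynomial.coeff_C_mul, Polynomial.coeff_X_pow, mul_ite, mul_one, mul_zero]
    rw [Finset.sum_ite_eq]
    split_ifs with h1
    · rfl
    · rw [Finset.mem_range, not_lt] at h1
      rw [Polynomial.coeff_eq_zero_of_natDegree_lt (by omega)]
      rfl
  have hc : Continuous fun θ : ℝ => Complex.exp (-(θ * Complex.I)) := by fun_prop
  have hpi := Real.pi_pos
  have hdvd : Polynomial.X ^ n ∣ q := by
    rw [Polynomial.X_pow_dvd_iff]
    intro j hj
    rw [hqc, ← hcoef j hj.le]
    exact hlt j hj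
  obtain ⟨q', hq'⟩ := hdvd
  have hq'0 : q'.eval 0 ≠ 0 := by
    rw [← Polynomial.coeff_zero_eq_eval_zero]
    have h1 : q.coeff n = q'.coeff 0 := by
      rw [hq']
      have := Polynomial.coeff_X_pow_mul q' n 0
      rwa [zero_add] at this
    rw [← h1, hqc, ← hcoef n le_rfl]
    exact hnz
  have hbig : ∀ᶠ r in 𝓝[>] (0 : ℝ), |(∫ θ in (0 : ℝ)..(2 * Real.pi),
      Complex.exp (-(θ * Complex.I)) * f (r, θ)).re - 2 * Real.pi * q.eval r| ≤
      (C * r ^ (n + 1)) * (2 * Real.pi) := by
    filter_upwards [hC, hcont, self_mem_nhdsWithin] with r h1 h2 h4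
    rw [mem_Ioi] at h4
    have e1 : ((∫ θ in (0 : ℝ)..(2 * Real.pi), Complex.exp (-(θ * Complex.I)) *
        EV (r, θ) Q).re) = 2 * Real.pi * q.eval r := by
      rw [int_EV]
      have : (2 * (Real.pi : ℂ)) = ((2 * Real.pi : ℝ) : ℂ) := by push_cast; ring
      rw [this, Complex.re_ofReal_mul, Complex.re_sum, hq, Polynomial.eval_finsetSum]
      congr 1
      refine Finset.sum_congr rfl fun j _ => ?_
      rw [Polynomial.eval_mul, Polynomial.eval_C, Polynomial.eval_pow, Polynomial.eval_X,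
        ← Complex.ofReal_pow, Complex.re_mul_ofReal]
    have e2 : (∫ θ in (0 : ℝ)..(2 * Real.pi), Complex.exp (-(θ * Complex.I)) *
        (f (r, θ) - EV (r, θ) Q)) = (∫ θ in (0 : ℝ)..(2 * Real.pi),
        Complex.exp (-(θ * Complex.I)) * f (r, θ)) - ∫ θ in (0 : ℝ)..(2 * Real.pi),
        Complex.exp (-(θ * Complex.I)) * EV (r, θ) Q := by
      have c1 : Continuous fun θ : ℝ => Complex.exp (-(θ * Complex.I)) * f (r, θ) := hc.mul h2
      have c2 : Continuous fun θ : ℝ => Complex.exp (-(θ * Complex.I)) * EV (r, θ) Q :=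
        hc.mul (EV_cont Q r)
      rw [← intervalIntegral.integral_sub (c1.intervalIntegrable _ _)
        (c2.intervalIntegrable _ _)]
      refine intervalIntegral.integral_congr fun θ _ => ?_
      ring
    have e3 : ‖∫ θ in (0 : ℝ)..(2 * Real.pi), Complex.exp (-(θ * Complex.I)) *
        (f (r, θ) - EV (r, θ) Q)‖ ≤ (C * r ^ (n + 1)) * |2 * Real.pi - 0| := by
      refine intervalIntegral.norm_integral_le_of_norm_le_const fun θ _ => ?_
      rw [norm_mul]
      have : -((θ : ℂ) * Complex.I) = ((-θ : ℝ) : ℂ) * Complex.I := by push_cast; ring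
      rw [this, Complex.norm_exp_ofReal_mul_I, one_mul]
      exact h1 θ
    have h5 := (Complex.abs_re_le_norm _).trans e3
    rw [e2, Complex.sub_re, e1, sub_zero, abs_of_pos (by positivity : (0 : ℝ) < 2 * Real.pi)] at h5
    exact h5
  have hlim : Tendsto (fun r : ℝ => |q'.eval r| - |C| * r) (𝓝[>] 0) (𝓝 (|q'.eval 0| - |C| * 0)) := by
    have h1 : Continuous fun r : ℝ => |q'.eval r| - |C| * r :=
      (q'.continuous.abs).sub (continuous_const.mul continuous_id)
    exact (h1.tendsto 0).mono_left nhdsWithin_le_nhds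
  have hpos : ∀ᶠ r in 𝓝[>] (0 : ℝ), 0 < |q'.eval r| - |C| * r := by
    refine hlim.eventually (lt_mem_nhds ?_)
    rw [mul_zero, sub_zero]
    exact abs_pos.2 hq'0
  filter_upwards [hbig, hpos, self_mem_nhdsWithin] with r h1 h2 h3
  rw [mem_Ioi] at h3
  intro h0
  rw [h0, zero_sub, abs_neg, hq', Polynomial.eval_mul, Polynomial.eval_pow, Polynomial.eval_X,
    abs_mul (2 * Real.pi), abs_mul (r ^ n), abs_of_pos (by positivity : (0 : ℝ) < 2 * Real.pi),
    abs_of_pos (pow_pos h3 n), pow_succ] at h1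
  have h4 : 0 < r ^ n * (2 * Real.pi) := by positivity
  have h5 : r ^ n * (2 * Real.pi) * |q'.eval r| ≤ r ^ n * (2 * Real.pi) * (C * r) := by
    nlinarith
  have h6 := le_of_mul_le_mul_left h5 h4
  have h7 : C * r ≤ |C| * r := mul_le_mul_of_nonneg_right (le_abs_self C) h3.le
  linarith

end Pool.Agent.LK
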