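import Pool.Agent.helper96.LK.SpecR

open Set Filter Topology PowerSeries Asymptotics

set_option linter.unusedSectionVars false

noncomputable section

namespace Pool.Agent.LK

open Pool.Agent.helper59.LC Pool.Agent.helper59.LD

section gen

variable {N K : ℕ} (R : RPt N 0)

theorem RC_Sc_Hv (H : Fin (K + 1) → MvPolynomial (Fin 2) ℂ) (v : Fin (K + 1) → ℝ) :
    Sc R.p (pr (Hv H v)) = ∑ i, MvPolynomial.C ((v i : ℝ) : ℂ) * Sc R.p (pr (H i)) := by
  have key : ∀ s : Finset (Fin (K + 1)),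
      Sc R.p (pr (∑ i ∈ s, MvPolynomial.C ((v i : ℝ) : ℂ) * H i)) =
        ∑ i ∈ s, MvPolynomial.C ((v i : ℝ) : ℂ) * Sc R.p (pr (H i)) := by
    intro s
    classical
    induction s using Finset.induction_on with
    | empty =>
      rw [Finset.sum_empty, Finset.sum_empty, Sc, Fin.sum_univ_two]
      have h0 : pr (0 : MvPolynomial (Fin 2) ℂ) 0 = 0 := rfl
      have h1 : pr (0 : MvPolynomial (Fin 2) ℂ) 1 = 0 := map_zero csw
      rw [h0, h1, mul_zero, mul_zero, add_zero]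
    | insert a s ha ih => rw [Finset.sum_insert ha, Finset.sum_insert ha, Sc_add, Sc_smul, ih]
  exact key _

theorem RC_G2_Hv (e : ℂ → ℂ) (H : Fin (K + 1) → MvPolynomial (Fin 2) ℂ) (v : Fin (K + 1) → ℝ)
    (w : ℂ) : G2 R e (Hv H v) w = ∑ i, ((v i : ℝ) : ℂ) * G2 R e (H i) w := by
  rw [G2, RC_Sc_Hv, Ez_sum, Finset.mul_sum, Finset.sum_mul]
  refine Finset.sum_congr rfl fun i _ => ?_
  rw [G2, Ez_mul, Ez_C]
  ring

theorem RC_AA_Hv (e : ℂ → ℂ) (H : Fin (K + 1) → MvPolynomial (Fin 2) ℂ) (v : Fin (K + 1) → ℝ)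
    (θ s : ℝ) : AA (G2 R e (Hv H v)) θ s = ∑ i, v i * AA (G2 R e (H i)) θ s := by
  simp only [AA]
  rw [RC_G2_Hv, Finset.mul_sum, Complex.re_sum]
  refine Finset.sum_congr rfl fun i _ => ?_
  rw [mul_left_comm, Complex.re_ofReal_mul]

section local_
variable {e : OpenPartialHomeomorph ℂ ℂ} {r C : ℝ} {U : Set ℂ} (hr : 0 < r)
  (h1 : Conv r (psi (R.g 0))) (h2 : Conv r (rec' (psi (R.g 0))))
  (hP : ∀ w ∈ Metric.ball (0 : ℂ) r, Ez (PP R.p 0) (e w) = ev w (psi (R.g 0)) ∧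
        0 < (Ez (Jac R.p * R.lam) (e w)).re ∧ 0 < (Ez (Jac R.p) (e w)).re ∧
        ‖e w‖ ≤ C * ‖w‖ ∧ e w ∈ U)
  (hcd : ContDiffOn ℝ 1 e (Metric.ball 0 r))

include hr h1 h2 hP hcd

theorem RC_MI_Hv (H : Fin (K + 1) → MvPolynomial (Fin 2) ℂ) (v : Fin (K + 1) → ℝ) {s : ℝ}
    (hs : 0 < s) (hsr : s < r) :
    MI (G2 R e (Hv H v)) s = ∑ i, v i * MI (G2 R e (H i)) s := by
  rw [MI]
  simp_rw [RC_AA_Hv]
  rw [intervalIntegral.integral_finsetSum]
  · refine Finset.sum_congr rfl fun i _ => ?_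
    rw [intervalIntegral.integral_const_mul]
    rfl
  · intro i _
    exact (continuous_const.mul
      (AA_cont (G2_ann R hr h1 h2 hP hcd (H i)) hs hsr)).intervalIntegrable _ _

/-- the reduced functions -/
theorem RC_indep {H : Fin (K + 1) → MvPolynomial (Fin 2) ℂ}
    (hind : LinearIndependent ℝ (fun i μ => (MMp R.p R.g R.lam (pr (H i)) 0 μ).re))
    (hne : ∀ s : ℝ, 0 < s → s < r → MI (G2 R e (H 0)) s ≠ 0) :
    LinearIndependent ℝ (fun (i : Fin (K + 1)) => fun s : Ioo (0 : ℝ) r =>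
      if i = 0 then (1 : ℝ) else MI (G2 R e (H i)) s / MI (G2 R e (H 0)) s) := by
  rw [Fintype.linearIndependent_iff] at hind ⊢
  intro v hv
  refine hind v ?_
  have hz : ∀ s : ℝ, 0 < s → s < r → MI (G2 R e (Hv H v)) s = 0 := by
    intro s hs hsr
    have h3 := congrFun hv ⟨s, hs, hsr⟩
    rw [Finset.sum_apply] at h3
    simp only [Pi.smul_apply, smul_eq_mul, Pi.zero_apply] at h3
    rw [RC_MI_Hv R hr h1 h2 hP hcd H v hs hsr]
    have hm := hne s hs hsr
    have h4 : ∀ i, v i * MI (G2 R e (H i)) s = MI (G2 R e (H 0)) s *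
        (v i * (if i = 0 then (1 : ℝ) else MI (G2 R e (H i)) s / MI (G2 R e (H 0)) s)) := by
      intro i
      split_ifs with h
      · rw [h]
        ring
      · field_simp
    rw [Finset.sum_congr rfl fun i _ => h4 i, ← Finset.mul_sum, h3, mul_zero]
  have hcont : ContinuousOn (G2 R e (Hv H v)) (Metric.ball 0 r) :=
    (G2_contDiff R h1 h2 hP hcd _).continuousOn
  have hsm : ∀ᶠ s in 𝓝[>] (0 : ℝ), 0 < s ∧ s < r := by
    filter_upwards [self_mem_nhdsWithin, mem_nhdsWithin_of_mem_nhds (Iio_mem_nhds hr)] with s a b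
    exact ⟨a, b⟩
  funext μ
  rw [Finset.sum_apply]
  simp only [Pi.smul_apply, smul_eq_mul, Pi.zero_apply]
  have hex : ∀ N, Ex N (fun q => ∑ i, ((v i : ℝ) : ℂ) * G2 R e (H i) (wF q))
      (∑ i, cc ((v i : ℝ) : ℂ) * PhH R (H i)) := by
    intro N
    have key : ∀ s : Finset (Fin (K + 1)),
        Ex N (fun q => ∑ i ∈ s, ((v i : ℝ) : ℂ) * G2 R e (H i) (wF q))
        (∑ i ∈ s, cc ((v i : ℝ) : ℂ) * PhH R (H i)) := by
      intro s
      classical
      induction s using Finset.induction_on with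
      | empty =>
        have := ex_cc N 0
        have h0 : (cc (0 : ℂ)) = 0 := by rw [cc, map_zero, map_zero]
        rw [h0] at this
        simpa using this
      | insert a s ha ih =>
        rw [Finset.sum_insert ha]
        have := ((ex_cc N ((v a : ℝ) : ℂ)).mul (ex_G2 R hr h1 h2 hP hcd (H a) N)).add ih
        refine this.congr (Eventually.of_forall fun q => ?_)
        simp only
        rw [Finset.sum_insert ha]
    exact key _
  have h3 := extract hex ?_ ?_ (2 * μ + 1)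
  · have h4 : (coeff (2 * μ + 1) (∑ i, cc ((v i : ℝ) : ℂ) * PhH R (H i))).coeff 1 =
        ∑ i, ((v i : ℝ) : ℂ) * MMp R.p R.g R.lam (pr (H i)) 0 μ := by
      have := tc_sum 1 μ Finset.univ (fun i => cc ((v i : ℝ) : ℂ) * PhH R (H i))
      simp only [tc_cc_mul, tc_PhH] at this
      exact this
    rw [h4, Complex.re_sum] at h3
    simp only [Complex.re_ofReal_mul] at h3
    exact h3
  · filter_upwards [hsm] with s hs
    have := G_cont hcont hs.1 hs.2
    refine this.congr fun θ => ?_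
    rw [RC_G2_Hv]
    rfl
  · filter_upwards [hsm] with s hs
    have h5 := hz s hs.1 hs.2
    rw [MI, int_AA_re hcont hs.1 hs.2] at h5
    have h6 : ∀ θ : ℝ, Complex.exp (-(θ * Complex.I)) *
        ∑ i, ((v i : ℝ) : ℂ) * G2 R e (H i) (wF (s, θ)) = Complex.exp (-(θ * Complex.I)) *
          G2 R e (Hv H v) (s * Complex.exp (θ * Complex.I)) := fun θ => by
      rw [RC_G2_Hv]
      rfl
    simp_rw [h6]
    exact h5

/-- the Melnikov integral does not vanish near zero -/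
theorem RC_ne (hRA : RA_stmt) (H : MvPolynomial (Fin 2) ℂ)
    (hH : ∃ μ, (MMp R.p R.g R.lam (pr H) 0 μ).re ≠ 0) :
    ∃ r₁ : ℝ, 0 < r₁ ∧ r₁ ≤ r ∧ ∀ s : ℝ, 0 < s → s < r₁ → MI (G2 R e H) s ≠ 0 := by
  have hcont : ContinuousOn (G2 R e H) (Metric.ball 0 r) :=
    (G2_contDiff R h1 h2 hP hcd _).continuousOn
  have hsm : ∀ᶠ s in 𝓝[>] (0 : ℝ), 0 < s ∧ s < r := by
    filter_upwards [self_mem_nhdsWithin, mem_nhdsWithin_of_mem_nhds (Iio_mem_nhds hr)] with s a b
    exact ⟨a, b⟩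
  have h3 := hRA (fun q => G2 R e H (wF q)) (PhH R H) (fun N => ex_G2 R hr h1 h2 hP hcd H N)
    (by
      filter_upwards [hsm] with s hs
      exact G_cont hcont hs.1 hs.2)
    (by
      obtain ⟨μ, hμ⟩ := hH
      refine ⟨2 * μ + 1, ?_⟩
      have h4 := tc_PhH R H μ
      rw [tc] at h4
      rw [h4]
      exact hμ)
  have h4 : ∀ᶠ s in 𝓝[>] (0 : ℝ), MI (G2 R e H) s ≠ 0 := by
    filter_upwards [h3, hsm] with s hs1 hs2
    rw [MI, int_AA_re hcont hs2.1 hs2.2]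
    exact hs1
  rw [eventually_nhdsWithin_iff] at h4
  obtain ⟨δ, hδ, hball⟩ := Metric.mem_nhds_iff.1 h4
  refine ⟨min δ r, lt_min hδ hr, min_le_right _ _, fun s hs1 hs2 => ?_⟩
  refine hball ?_ hs1
  rw [Metric.mem_ball, Real.dist_eq, sub_zero, abs_of_pos hs1]
  exact hs2.trans_le (min_le_left _ _)

end local_

end gen

theorem RC_Hv_mul {K : ℕ} (dn : MvPolynomial (Fin 2) ℂ)
    (H : Fin (K + 1) → MvPolynomial (Fin 2) ℂ) (v : Fin (K + 1) → ℝ) :
    Hv (fun i => dn * H i) v = dn * Hv H v := by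
  rw [Hv, Hv, Finset.mul_sum]
  exact Finset.sum_congr rfl fun i _ => by ring

theorem RC (hRA : RA_stmt) (hRB : RB_stmt) : RC_stmt := by
  classical
  intro n K Q U hU
  obtain ⟨H, hH, hind⟩ := hRB n K Q
  set R := Q.R with hR
  obtain ⟨e, r', C, hr', h1', h2', hes', hcd', hP', hinv'⟩ := exists_loc R.low R.lconst (R.g 0) hU
  set G : Fin (K + 1) → MvPolynomial (Fin 2) ℂ := fun i => Q.dn * H i with hG
  have hG0 : ∃ μ, (MMp R.p R.g R.lam (pr (G 0)) 0 μ).re ≠ 0 := by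
    have h3 := hind.ne_zero 0
    by_contra hcon
    simp only [not_exists, not_not] at hcon
    exact h3 (funext fun μ => hcon μ)
  obtain ⟨r, hr, hrr', hne⟩ := RC_ne R hr' h1' h2' hP' hcd' hRA (G 0) hG0
  have hbb : Metric.ball (0 : ℂ) r ⊆ Metric.ball 0 r' := Metric.ball_subset_ball hrr'
  have h1 : Conv r (psi (R.g 0)) := h1'.mono hr.le hrr'
  have h2 : Conv r (rec' (psi (R.g 0))) := h2'.mono hr.le hrr'
  have hes : Metric.ball 0 r ⊆ e.source := hbb.trans hes'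
  have hcd : ContDiffOn ℝ 1 e (Metric.ball 0 r) := hcd'.mono hbb
  have hP : ∀ w ∈ Metric.ball (0 : ℂ) r, Ez (PP R.p 0) (e w) = ev w (psi (R.g 0)) ∧
        0 < (Ez (Jac R.p * R.lam) (e w)).re ∧ 0 < (Ez (Jac R.p) (e w)).re ∧
        ‖e w‖ ≤ C * ‖w‖ ∧ e w ∈ U := fun w hw => hP' w (hbb hw)
  have hinv : ∀ (w : ℝ → ℂ) (u' : ℂ) (t : ℝ), (∀ t, ‖w t‖ < r) →
        HasDerivAt (fun t => ev (w t) (psi (R.g 0))) u' t →
        HasDerivAt w ((ev (w t) (derivative ℂ (psi (R.g 0))))⁻¹ * u') t :=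
    fun w u' t hw => hinv' w u' t fun t => (hw t).trans_le hrr'
  set φ : Fin (K + 1) → ℝ → ℝ := fun i s =>
    if i = 0 then (1 : ℝ) else MI (G2 R e (G i)) s / MI (G2 R e (G 0)) s with hφ
  have hMd : ∀ i, ∀ s ∈ Ioo 0 r, DifferentiableAt ℝ (MI (G2 R e (G i))) s := by
    intro i s hs
    exact (int_AA_deriv (G2_ann R hr h1 h2 hP hcd (G i)) hs.1 hs.2).differentiableAt
  have hφd : ∀ i, ∀ s ∈ Ioo 0 r, DifferentiableAt ℝ (φ i) s := by
    intro i s hs
    by_cases hi : i = 0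
    · have : φ i = fun _ => 1 := funext fun s => if_pos hi
      rw [this]
      exact differentiableAt_const _
    · have : φ i = fun s => MI (G2 R e (G i)) s / MI (G2 R e (G 0)) s :=
        funext fun s => if_neg hi
      rw [this]
      exact (hMd i s hs).div (hMd 0 s hs) (hne s hs.1 hs.2)
  obtain ⟨v, z, hzm, hz⟩ := exists_zeros φ 0 (fun s => if_pos rfl) hφd
    (RC_indep R hr h1 h2 hP hcd (H := G) hind hne) (m := K) (by rw [Fintype.card_fin])
  set F : ℝ → ℝ := fun s => ∑ i, v i * φ i s with hF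
  have hMF : ∀ s, 0 < s → s < r → MI (G2 R e (Hv G v)) s = MI (G2 R e (G 0)) s * F s := by
    intro s hs hsr
    rw [RC_MI_Hv R hr h1 h2 hP hcd G v hs hsr, hF]
    simp only
    rw [Finset.mul_sum]
    refine Finset.sum_congr rfl fun i _ => ?_
    rw [hφ]
    simp only
    have hm := hne s hs hsr
    split_ifs with h
    · rw [h]
      ring
    · field_simp
  have hFd : ∀ s ∈ Ioo 0 r, DifferentiableAt ℝ F s := by
    intro s hs
    exact DifferentiableAt.fun_sum (u := Finset.univ) (A := fun i s => v i * φ i s) (x := s)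
      (fun i _ => (hφd i s hs).const_mul (v i))
  have hann := G2_ann R hr h1 h2 hP hcd (Hv G v)
  have hz1 : ∀ j, ∫ θ in (0 : ℝ)..(2 * Real.pi), AA (G2 R e (Hv G v)) θ (z j) = 0 := by
    intro j
    obtain ⟨a, b, -⟩ := hz j
    have h3 := hMF (z j) a.1 a.2
    have h4 : F (z j) = 0 := b
    rw [h4, mul_zero] at h3
    exact h3
  have hz2 : ∀ j, ∫ θ in (0 : ℝ)..(2 * Real.pi), deriv (AA (G2 R e (Hv G v)) θ) (z j) ≠ 0 := by
    intro j
    obtain ⟨a, b, c⟩ := hz j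
    have h3 := int_AA_deriv hann a.1 a.2
    have h4 : HasDerivAt (fun s => MI (G2 R e (G 0)) s * F s)
        (MI (G2 R e (G 0)) (z j) * deriv F (z j)) (z j) := by
      have h5 := (hFd (z j) a).hasDerivAt
      have h8 := (hMd 0 (z j) a).hasDerivAt
      have h9 := h8.fun_mul h5
      refine h9.congr_deriv ?_
      have h4 : F (z j) = 0 := b
      rw [h4]
      ring
    have h5 : HasDerivAt (fun x => ∫ θ in (0 : ℝ)..(2 * Real.pi), AA (G2 R e (Hv G v)) θ x)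
        (MI (G2 R e (G 0)) (z j) * deriv F (z j)) (z j) := by
      refine h4.congr_of_eventuallyEq ?_
      filter_upwards [Ioo_mem_nhds a.1 a.2] with x hx
      exact hMF x hx.1 hx.2
    rw [h3.unique h5]
    exact mul_ne_zero (hne _ a.1 a.2) c
  obtain ⟨ε₀, hε₀, hε⟩ := cycles_of_zeros hann hzm (fun j => (hz j).1.1) (fun j => (hz j).1.2)
    hz1 hz2 (tau_cont R h1 h2 hP hcd) (fun w hw => (hP w hw).2.1) hes
    (Z := Zf R (Hv G v)) (fun ε w hw hd => hfw R h1 h2 hP hcd (Hv G v) ε w hw hd)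
    (fun ε c w hw hcw hd => hbw R h1 h2 hP hinv (Hv G v) ε c w hw hcw hd)
  refine ⟨Hv H v, td_Hv hH v, ε₀, hε₀, fun ε hε1 hε2 => ?_⟩
  obtain ⟨c, hc1, hc2⟩ := hε ε hε1 hε2
  rw [hG, RC_Hv_mul] at hc2
  refine ⟨c, hc1, fun j => ?_⟩
  obtain ⟨a, b, c', d⟩ := hc2 j
  refine ⟨a, b, c'.trans ?_, d⟩
  rintro _ ⟨w, hw, rfl⟩
  exact (hP w hw).2.2.2.2

end Pool.Agent.LK
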