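import Pool.Agent.helper96.LK.SpecM

open PowerSeries Filter

set_option linter.unusedSectionVars false

noncomputable section

namespace Pool.Agent.LK

open Pool.Agent.helper59.LC Pool.Agent.helper59.LD

section
variable {A B : Type} [CommRing A] [Algebra ℚ A] [CommRing B] [Algebra ℚ B] (f : A →+* B)

theorem Z1_cb {m : ℕ} {e : A} (r : Rt m e) (k : ℤ) (j : ℕ) :
    f (coeff j (bs r k)) = coeff j (bs (r.map f) k) := by
  rw [← bs_map, coeff_map]

theorem Z1_cz {m : ℕ} {e : A} (r : Rt m e) (k : ℤ) (j : ℕ) :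
    f (coeff j (r.z k)) = coeff j ((r.map f).z k) := by
  change _ = coeff j (PowerSeries.map f (r.z k))
  rw [coeff_map]

theorem Z1_wA {m : ℕ} {e e' : A} (a : ℕ) (r : Rt m e) (r' : Rt m e') (Q : Pt) (k : ℕ) :
    f (wA a r r' Q k) = wA a (r.map f) (r'.map f) Q k := by
  rw [wA, wA, map_add, map_mul, map_mul, map_mul, map_mul, Z1_cb, Z1_cb, Z1_cz, Z1_cz]
  congr 2
  · split_ifs
    · exact map_one f
    · exact map_natCast f a
    · exact map_one f
  · split_ifs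
    · exact map_zero f
    · exact map_one f
    · exact map_natCast f a

theorem Z1_wB {m : ℕ} {e e' : A} (a : ℕ) (r : Rt m e) (r' : Rt m e') (Q : Pt) (k : ℕ) :
    f (wB a r r' Q k) = wB a (r.map f) (r'.map f) Q k := by
  rw [wB, wB, map_sub, map_mul, map_mul, Z1_cb, Z1_cb, Z1_cb, Z1_cb]

theorem Z1_wP {m : ℕ} {e e' : A} (a dl : ℕ) (r : Rt m e) (r' : Rt m e') (i : Ix a dl) (k : ℕ) :
    f (wP a dl r r' i k) = wP a dl (r.map f) (r'.map f) i k := by
  rcases i with _ | u | u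
  · change f (if k = 0 then a * coeff 1 (bs r 0) + coeff 1 (bs r' 0) else 0) =
      if k = 0 then a * coeff 1 (bs (r.map f) 0) + coeff 1 (bs (r'.map f) 0) else 0
    split_ifs
    · rw [map_add, map_mul, map_natCast, Z1_cb, Z1_cb]
    · exact map_zero f
  · exact Z1_wA f a r r' _ k
  · exact Z1_wB f a r r' _ k

end

theorem Z1_wb (hWB : WB_stmt) {a dl : ℕ} (ha : 11 ≤ a) (hdl : dl ≤ 1) {e0 e1 : ℂ} (h0 : e0 = 0)
    (h1 : e1 = 1) (r : Rt (a ^ 2 - 1) e0) (r' : Rt (a ^ 2 - 1) e1) (i : Ix a dl) (k : ℕ) :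
    wP a dl r r' i k = w0 a dl i k := by
  subst h0
  subst h1
  exact hWB a dl ha hdl r r' i k

theorem Z1_wm (hWM : WM_stmt) {a dl : ℕ} (ha : 11 ≤ a) (hdl : dl ≤ 1) {s e0 e1 : ℂ} (h0 : e0 = s)
    (h1 : e1 = 1 + 2 * s) (r : Rt (a ^ 2 - 1) e0) (r' : Rt (a ^ 2 - 1) e1) (i : Ix a dl) (k : ℕ) :
    MM (pT ℂ a) (gT s (1 + 2 * s)) 1 (fun t => den ℂ a * hh ℂ a dl i t) k =
      fP s i * wP a dl r r' i k := by
  subst h0
  subst h1
  exact hWM ℂ a dl e0 ha hdl r r' i k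

theorem Z1_fP {a dl : ℕ} {s : ℂ} (hs : s ≠ 0) (i : Ix a dl) : fP s i ≠ 0 := by
  rcases i with _ | u | u
  · exact one_ne_zero
  · exact one_ne_zero
  · exact hs

theorem Z1 (hROOT : ROOT_stmt) (hWM : WM_stmt) (hWB : WB_stmt) (hZ0 : Z0_stmt) : Z1_stmt := by
  intro a dl ha hdl
  have hm : 1 ≤ a ^ 2 - 1 := by
    have : 11 ^ 2 ≤ a ^ 2 := Nat.pow_le_pow_left ha 2
    omega
  obtain ⟨r⟩ := hROOT (Polynomial ℂ) (a ^ 2 - 1) Polynomial.X hm
  obtain ⟨r'⟩ := hROOT (Polynomial ℂ) (a ^ 2 - 1) (1 + 2 * Polynomial.X) hm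
  have hev : ∀ (s : ℂ) (i : Ix a dl) (k : ℕ), (wP a dl r r' i k).eval s =
      wP a dl (r.map (Polynomial.evalRingHom s)) (r'.map (Polynomial.evalRingHom s)) i k :=
    fun s i k => Z1_wP (Polynomial.evalRingHom s) a dl r r' i k
  have hX : ∀ s : ℂ, Polynomial.evalRingHom s Polynomial.X = s := fun s => by
    rw [Polynomial.coe_evalRingHom, Polynomial.eval_X]
  have hX2 : ∀ s : ℂ, Polynomial.evalRingHom s (1 + 2 * Polynomial.X) = 1 + 2 * s := fun s => by
    rw [map_add, map_mul, map_one, map_ofNat, hX]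
  have hind : LinearIndependent ℂ (fun (i : Ix a dl) k => (wP a dl r r' i k).eval 0) := by
    have : (fun (i : Ix a dl) k => (wP a dl r r' i k).eval 0) = w0 a dl := by
      funext i k
      rw [hev 0 i k]
      exact Z1_wb hWB ha hdl (hX 0) (by rw [hX2]; ring) _ _ i k
    rw [this]
    exact hZ0 a dl ha hdl
  obtain ⟨D, hD0, hD⟩ := at_indep hind
  refine ⟨D * Polynomial.X, mul_ne_zero hD0 Polynomial.X_ne_zero, fun s hs => ?_⟩
  rw [Polynomial.eval_mul, Polynomial.eval_X] at hs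
  have h1 := hD s (left_ne_zero_of_mul hs)
  have hs0 : s ≠ 0 := right_ne_zero_of_mul hs
  have h2 := h1.units_smul (fun (i : Ix a dl) => Units.mk0 (fP s i) (Z1_fP hs0 i))
  have h3 : (fun (i : Ix a dl) k => MM (pT ℂ a) (gT s (1 + 2 * s)) 1
      (fun t => den ℂ a * hh ℂ a dl i t) k) =
      ((fun (i : Ix a dl) => Units.mk0 (fP s i) (Z1_fP hs0 i)) •
        fun (i : Ix a dl) k => (wP a dl r r' i k).eval s) := by
    funext i k
    rw [Z1_wm hWM ha hdl (hX s) (hX2 s) (r.map (Polynomial.evalRingHom s))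
      (r'.map (Polynomial.evalRingHom s)) i k, ← hev s i k]
    rfl
  rw [h3]
  exact h2

end Pool.Agent.LK
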