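import Pool.Agent.helper96.LK.SpecM

open PowerSeries Filter

set_option linter.unusedSectionVars false

noncomputable section

namespace Pool.Agent.LK

open Pool.Agent.helper59.LC Pool.Agent.helper59.LD

section

variable {A : Type} [CommRing A] [Algebra ℚ A]

theorem SOL_cc_one : (cc (1 : A)) = 1 := by rw [cc, map_one, map_one]

theorem SOL_cc_sub (x y : A) : cc (x - y) = cc x - cc y := by rw [cc, map_sub, map_sub]; rfl

theorem SOL_pow {m : ℕ} {e : A} (r : Rt m e) (k : ℤ) (n : ℕ) : r.z k ^ n = r.z (n * k) := by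
  induction n with
  | zero => rw [pow_zero]; simp [r.zero]
  | succ n ih =>
    rw [pow_succ, ih, ← r.add]
    congr 1
    push_cast
    ring

theorem SOL_coeff (a : A⟦X⟧) (e : ℤ) (ha : coeff 0 a = 1) : coeff 0 (emb e a) = 1 := by
  rw [coeff_emb, ha, map_one, one_mul]
  simp

theorem SOL_unit (a : ℕ) (ha : 2 ≤ a) :
    (cc (qc A (1 / ((a : ℚ) ^ 2 - 1))) : (LaurentPolynomial A)⟦X⟧) *
      (cc ((a : A)) * cc ((a : A)) - 1) = 1 := by
  have h1 : ((a : A)) = qc A (a : ℚ) := (qc_nat a).symm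
  have h2 : qc A (1 : ℚ) = (1 : A) := map_one _
  rw [← cc_mul, ← SOL_cc_one, ← SOL_cc_sub, ← cc_mul]
  congr 1
  rw [h1, ← h2, ← qc_mul]
  have h3 : qc A ((a : ℚ) * a) - qc A 1 = qc A ((a : ℚ) * a - 1) := (map_sub (algebraMap ℚ A) _ _).symm
  rw [h3, ← qc_mul]
  congr 1
  have h4 : (2 : ℚ) ≤ a := by exact_mod_cast ha
  have h5 : (a : ℚ) ^ 2 - 1 ≠ 0 := by nlinarith
  have h6 : (a : ℚ) * a - 1 = (a : ℚ) ^ 2 - 1 := by ring
  rw [h6]
  field_simp

end

theorem SOL (hLOW : LOW_stmt) : SOL_stmt := by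
  intro A _ _ a e e' ha r r'
  set ξ : (LaurentPolynomial A)⟦X⟧ := emb 1 (r.z a) * emb (-1) (r'.z (-1)) with hξ
  set η : (LaurentPolynomial A)⟦X⟧ := emb 1 (r.z (-1)) * emb (-1) (r'.z a) with hη
  set Y : Fin 2 → (LaurentPolynomial A)⟦X⟧ := fun i =>
    if i = 0 then cc (a : A) * (ξ - 1) + (η - 1) else (ξ - 1) + cc (a : A) * (η - 1) with hY
  have hY0 : Y 0 = cc (a : A) * (ξ - 1) + (η - 1) := rfl
  have hY1 : Y 1 = (ξ - 1) + cc (a : A) * (η - 1) := rfl
  have hu := SOL_unit (A := A) a ha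
  have hx : ev2 Y (xP A a) = ξ := by
    rw [xP, ev2_add, ev2_one, ev2_mul, ev2_C, ev2_sub, ev2_mul, ev2_C, ev2_X, ev2_X, hY0, hY1]
    linear_combination (ξ - 1) * hu
  have hy : ev2 Y (yP A a) = η := by
    rw [yP, ev2_add, ev2_one, ev2_mul, ev2_C, ev2_sub, ev2_mul, ev2_C, ev2_X, ev2_X, hY0, hY1]
    linear_combination (η - 1) * hu
  have hξ0 : coeff 0 ξ = 1 := by
    rw [hξ, coeff_mul, Finset.Nat.antidiagonal_zero, Finset.sum_singleton, SOL_coeff _ _ (r.c0 _),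
      SOL_coeff _ _ (r'.c0 _), one_mul]
  have hη0 : coeff 0 η = 1 := by
    rw [hη, coeff_mul, Finset.Nat.antidiagonal_zero, Finset.sum_singleton, SOL_coeff _ _ (r.c0 _),
      SOL_coeff _ _ (r'.c0 _), one_mul]
  have hX1 : (X : (LaurentPolynomial A)⟦X⟧) ∣ ξ - 1 := by
    rw [X_dvd_iff, ← coeff_zero_eq_constantCoeff_apply, map_sub, hξ0, coeff_zero_one, sub_self]
  have hX2 : (X : (LaurentPolynomial A)⟦X⟧) ∣ η - 1 := by
    rw [X_dvd_iff, ← coeff_zero_eq_constantCoeff_apply, map_sub, hη0, coeff_zero_one, sub_self]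
  have hm1 : ((a : ℤ) * a + -1) = ((a ^ 2 - 1 : ℕ) : ℤ) := by
    have : 1 ≤ a ^ 2 := Nat.one_le_pow _ _ (by omega)
    push_cast [Nat.cast_sub this]
    ring
  have hm2 : (-1 + (a : ℤ) * a) = ((a ^ 2 - 1 : ℕ) : ℤ) := by rw [← hm1]; ring
  have e1 : ξ ^ a * η = 1 + emb 1 (psi (gq e)) := by
    have h1 : ξ ^ a * η = emb 1 (r.z a ^ a * r.z (-1)) * emb (-1) (r'.z (-1) ^ a * r'.z a) := by
      rw [hξ, hη, mul_pow, map_mul, map_mul, map_pow, map_pow]
      ring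
    have h2 : ((a : ℤ) * -1 + a) = 0 := by ring
    rw [h1, SOL_pow, SOL_pow, ← r.add, ← r'.add, hm1, h2, r.top, r'.zero, map_one, mul_one,
      map_add, map_one]
  have e2 : ξ * η ^ a = 1 + emb (-1) (psi (gq e')) := by
    have h1 : ξ * η ^ a = emb 1 (r.z a * r.z (-1) ^ a) * emb (-1) (r'.z (-1) * r'.z a ^ a) := by
      rw [hξ, hη, mul_pow, map_mul, map_mul, map_pow, map_pow]
      ring
    have h2 : ((a : ℤ) + a * -1) = 0 := by ring
    rw [h1, SOL_pow, SOL_pow, ← r.add, ← r'.add, hm2, h2, r'.top, r.zero, map_one, one_mul,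
      map_add, map_one]
  have hsol : IsSol (pT A a) (rhs (gT e e')) Y := by
    refine ⟨fun i => ?_, fun i => ?_⟩
    · fin_cases i
      · exact dvd_add (dvd_mul_of_dvd_right hX1 _) hX2
      · exact dvd_add hX1 (dvd_mul_of_dvd_right hX2 _)
    · fin_cases i
      · change Y 0 + ev2 Y (pT A a 0) = emb 1 (psi (gq e))
        have h3 : pT A a 0 = xP A a ^ a * yP A a - 1 - MvPolynomial.X 0 := rfl
        rw [h3, ev2_sub, ev2_sub, ev2_mul, ev2_pow, ev2_X, ev2_one, hx, hy]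
        linear_combination e1
      · change Y 1 + ev2 Y (pT A a 1) = emb (-1) (psi (gq e'))
        have h3 : pT A a 1 = xP A a * yP A a ^ a - 1 - MvPolynomial.X 1 := rfl
        rw [h3, ev2_sub, ev2_sub, ev2_mul, ev2_pow, ev2_X, ev2_one, hx, hy]
        linear_combination e2
  have hlow := (hLOW A a ha).1
  have heq : xy (pT A a) (gT e e') = Y := (isSol_xy hlow (gT e e')).unique hlow hsol
  rw [heq]
  exact ⟨hx, hy⟩

end Pool.Agent.LK
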